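import Pool.Agent.Helper16.KS.Final
import Pool.Agent.Helper16.KS.Last
import Pool.Agent.Helper79.KS.FP
import Pool.Agent.Helper88.KS.Mult1
import Pool.Agent.Helper88.KS.Cand1
import Pool.Agent.Helper29.KS.Mass
import Pool.Agent.Helper59.KS.Weights
import Pool.Agent.Helper15.KS.OrdWin
import Pool.Agent.Helper15.KS.H3
import Pool.Agent.Helper60.KX.Expand
import Pool.Agent.Helper60.KX.H12
import Pool.Agent.Helper60.KX.H4
import Pool.Agent.Helper60.KX.Sys
import Pool.Agent.Helper72.KS.Init
import Pool.Agent.Helper35.KL.Load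
import Pool.Agent.Helper48.KS.PowC
import Pool.Agent.Helper33.KS.LFinal
import Pool.Agent.Helper14.KS.Crude
import Pool.Agent.Helper62.KS.EGFinal

/-! Assembly of project KS (MP_768c9c_nt, S17468). -/

set_option autoImplicit false

namespace Pool.Agent.Helper10.KS

open Pool.Agent.Helper16.KS

theorem existsSys_all : ExistsSys := Helper60.KX.existsSys Helper48.KS.powC

theorem light_all : Light :=
  Helper33.KS.light (Helper15.KS.ordWin Helper59.KS.ordLe) Helper29.KS.rank Helper59.KS.wpLe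
    Helper59.KS.ordLe

theorem goodStar_all : GoodStar :=
  star_assembly light_all Helper60.KX.expand
    (Helper60.KX.h12 Helper29.KS.woLe Helper59.KS.wpLe)
    (Helper15.KS.h3 Helper59.KS.wpLe Helper29.KS.sumW)
    (Helper60.KX.h4 Helper59.KS.ordLe Helper59.KS.ctlLe)
    (Helper72.KS.init Helper29.KS.woLe)

theorem existsGood_all : ExistsGood :=
  Helper62.KS.existsGood_of Helper88.KS.cand1 Helper88.KS.mult1 Helper29.KS.massC1
    Helper29.KS.massR1 Helper14.KS.crude1 Helper14.KS.rpart1 Helper35.KL.load1 Helper35.KL.load2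

theorem target_all : Target :=
  target existsSys_all existsGood_all goodStar_all Helper79.KS.FPM.fp last

theorem powerSaving_all :
    ∃ f : ℕ → ℝ, f 1 = 1 ∧ (∀ m n : ℕ, 0 < m → 0 < n → f (m * n) = f m * f n) ∧
      ∃ δ C : ℝ, 0 < δ ∧ ∀ N : ℕ, 0 < N →
        |∑ n ∈ Finset.Icc 1 N, f n| ≤ C * (N : ℝ) ^ (-(1/2 + δ)) := by
  obtain ⟨a, g, C, e, he, ha, hC⟩ :=
    exists_f existsSys_all existsGood_all goodStar_all Helper79.KS.FPM.fp last
  exact ⟨a, by rw [ha, CM_one], fun m n hm hn => by rw [ha, ha, ha, CM_mul g hm.ne' hn.ne'],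
    e, C, he, fun N hN => hC N hN⟩

end Pool.Agent.Helper10.KS
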