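import Pool.Agent.Helper55.QRH.C10

/-!
# Project KS (S17468): the fixed point layer, abstract form

`Sys`: cells, own integers with their control prime `q`, nonnegative weights; `fp t` the value at
primes for the parameters `t`, `W` the majorant.  Main result: `Sys.exists_t`: if the sum of the
completely multiplicative function `W` over every cell `i` is at most `(2 + 1/4) G i`, then there are
parameters `t` with `|t i| ≤ 1` such that all cell sums of `f_t` vanish.
-/

set_option autoImplicit false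
open scoped Classical

namespace Pool.Agent.Helper10.KS

/-- completely multiplicative extension -/
noncomputable def cm (g : ℕ → ℝ) (n : ℕ) : ℝ := (n.primeFactorsList.map g).prod

lemma cm_one (g : ℕ → ℝ) : cm g 1 = 1 := by simp [cm]

lemma cm_mul (g : ℕ → ℝ) {a b : ℕ} (ha : a ≠ 0) (hb : b ≠ 0) : cm g (a * b) = cm g a * cm g b := by
  unfold cm
  rw [(Nat.perm_primeFactorsList_mul ha hb).map g |>.prod_eq, List.map_append, List.prod_append]

lemma cm_prime (g : ℕ → ℝ) {p : ℕ} (hp : p.Prime) : cm g p = g p := by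
  simp [cm, Nat.primeFactorsList_prime hp]

lemma cm_nonneg {g : ℕ → ℝ} (hg : ∀ p, 0 ≤ g p) (n : ℕ) : 0 ≤ cm g n := by
  unfold cm
  apply List.prod_nonneg
  intro x hx
  obtain ⟨p, _, rfl⟩ := List.mem_map.mp hx
  exact hg p

section Bd

variable {ι : Type}

/-- functions of the parameters with sup norm plus Lipschitz constant at most `b` -/
def Bd (b : ℝ) (F : (ι → ℝ) → ℝ) : Prop :=
  ∃ v l : ℝ, 0 ≤ v ∧ 0 ≤ l ∧ v + l ≤ b ∧ (∀ t : ι → ℝ, (∀ i, |t i| ≤ 1) → |F t| ≤ v) ∧
    ∀ t t' : ι → ℝ, (∀ i, |t i| ≤ 1) → (∀ i, |t' i| ≤ 1) → ∀ D : ℝ, 0 ≤ D →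
      (∀ i, |t i - t' i| ≤ D) → |F t - F t'| ≤ l * D

lemma Bd.mono {b b' : ℝ} {F : (ι → ℝ) → ℝ} (h : Bd b F) (hb : b ≤ b') : Bd b' F := by
  obtain ⟨v, l, hv, hl, hs, h1, h2⟩ := h
  exact ⟨v, l, hv, hl, hs.trans hb, h1, h2⟩

lemma Bd.nonneg {b : ℝ} {F : (ι → ℝ) → ℝ} (h : Bd b F) : 0 ≤ b := by
  obtain ⟨v, l, hv, hl, hs, _, _⟩ := h
  linarith

lemma Bd.const (c : ℝ) : Bd |c| (fun _ : ι → ℝ => c) :=
  ⟨|c|, 0, abs_nonneg c, le_rfl, by simp, fun _ _ => le_rfl, fun _ _ _ _ D _ _ => by simp⟩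

lemma Bd.const' {c : ℝ} (hc : 0 ≤ c) : Bd c (fun _ : ι → ℝ => c) := by
  have := Bd.const (ι := ι) c
  rwa [abs_of_nonneg hc] at this

lemma Bd.coord (i : ι) : Bd 2 (fun t : ι → ℝ => t i) :=
  ⟨1, 1, zero_le_one, zero_le_one, by norm_num, fun t ht => ht i,
    fun t t' _ _ D _ hD => by simpa using hD i⟩

lemma Bd.add {b b' : ℝ} {F F' : (ι → ℝ) → ℝ} (h : Bd b F) (h' : Bd b' F') :
    Bd (b + b') (fun t => F t + F' t) := by
  obtain ⟨v, l, hv, hl, hs, h1, h2⟩ := h
  obtain ⟨v', l', hv', hl', hs', h1', h2'⟩ := h'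
  refine ⟨v + v', l + l', by positivity, by positivity, by linarith, fun t ht => ?_,
    fun t t' ht ht' D hD0 hD => ?_⟩
  · exact (abs_add_le _ _).trans (add_le_add (h1 t ht) (h1' t ht))
  · have e : F t + F' t - (F t' + F' t') = (F t - F t') + (F' t - F' t') := by ring
    rw [e, add_mul]
    exact (abs_add_le _ _).trans (add_le_add (h2 t t' ht ht' D hD0 hD) (h2' t t' ht ht' D hD0 hD))

lemma Bd.mul {b b' : ℝ} {F F' : (ι → ℝ) → ℝ} (h : Bd b F) (h' : Bd b' F') :
    Bd (b * b') (fun t => F t * F' t) := by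
  obtain ⟨v, l, hv, hl, hs, h1, h2⟩ := h
  obtain ⟨v', l', hv', hl', hs', h1', h2'⟩ := h'
  refine ⟨v * v', l * v' + v * l', by positivity, by positivity, ?_, fun t ht => ?_,
    fun t t' ht ht' D hD0 hD => ?_⟩
  · calc v * v' + (l * v' + v * l') ≤ (v + l) * (v' + l') := by nlinarith [mul_nonneg hl hl']
      _ ≤ b * b' := mul_le_mul hs hs' (by positivity) (by linarith)
  · rw [abs_mul]
    exact mul_le_mul (h1 t ht) (h1' t ht) (abs_nonneg _) hv
  · have e : F t * F' t - F t' * F' t' = (F t - F t') * F' t + F t' * (F' t - F' t') := by ring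
    rw [e]
    refine (abs_add_le _ _).trans ?_
    rw [abs_mul, abs_mul]
    calc |F t - F t'| * |F' t| + |F t'| * |F' t - F' t'| ≤ (l * D) * v' + v * (l' * D) := by
          apply add_le_add
          · exact mul_le_mul (h2 t t' ht ht' D hD0 hD) (h1' t ht) (abs_nonneg _) (by positivity)
          · exact mul_le_mul (h1 t' ht') (h2' t t' ht ht' D hD0 hD) (abs_nonneg _) hv
      _ = (l * v' + v * l') * D := by ring

lemma Bd.sum {α : Type} (T : Finset α) {b : α → ℝ} {F : α → (ι → ℝ) → ℝ}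
    (h : ∀ a ∈ T, Bd (b a) (F a)) : Bd (∑ a ∈ T, b a) (fun t => ∑ a ∈ T, F a t) := by
  induction T using Finset.induction_on with
  | empty => simpa using Bd.const' (ι := ι) (le_refl (0 : ℝ))
  | insert a T ha ih =>
    simp only [Finset.sum_insert ha]
    exact (h a (Finset.mem_insert_self a T)).add
      (ih fun c hc => h c (Finset.mem_insert_of_mem hc))

end Bd

/-- an abstract system of cells with own integers -/
structure Sys (ι : Type) where
  /-- the cells -/
  cell : ι → Finset ℕ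
  /-- the own integers of a cell -/
  own : ι → Finset ℕ
  /-- the control prime of an own integer -/
  q : ι → ℕ → ℕ
  /-- the weight given to the control prime by an own integer -/
  c : ι → ℕ → ℝ
  /-- the parameter free part at primes -/
  base : ℕ → ℝ
  /-- own mass of a cell -/
  G : ι → ℝ
  cell_pos : ∀ i, ∀ n ∈ cell i, n ≠ 0
  own_sub : ∀ i, own i ⊆ cell i
  q_prime : ∀ i, ∀ n ∈ own i, (q i n).Prime
  q_dvd : ∀ i, ∀ n ∈ own i, q i n ∣ n
  c_nonneg : ∀ i n, 0 ≤ c i n
  base_nonneg : ∀ p, 0 ≤ base p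
  G_pos : ∀ i, 0 < G i
  G_eq : ∀ i, ∑ n ∈ own i, c i n * cm base (n / q i n) = G i
  fin : ∀ p : ℕ, {i | ∃ n ∈ own i, q i n = p}.Finite

namespace Sys

variable {ι : Type} (S : Sys ι)

/-- weight of the cell `i` on the prime `p` -/
noncomputable def w (i : ι) (p : ℕ) : ℝ := ∑ n ∈ (S.own i).filter (fun n => S.q i n = p), S.c i n

/-- the cells using the prime `p` -/
noncomputable def users (p : ℕ) : Finset ι := (S.fin p).toFinset

lemma mem_users {p : ℕ} {i : ι} : i ∈ S.users p ↔ ∃ n ∈ S.own i, S.q i n = p := by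
  simp [users]

/-- value at the prime `p` -/
noncomputable def fp (t : ι → ℝ) (p : ℕ) : ℝ := S.base p + ∑ i ∈ S.users p, t i * S.w i p

/-- the majorant -/
noncomputable def W (p : ℕ) : ℝ := S.base p + 2 * ∑ i ∈ S.users p, S.w i p

lemma w_nonneg (i : ι) (p : ℕ) : 0 ≤ S.w i p := Finset.sum_nonneg fun n _ => S.c_nonneg i n

lemma W_nonneg (p : ℕ) : 0 ≤ S.W p := by
  have := S.base_nonneg p
  have := Finset.sum_nonneg (fun i (_ : i ∈ S.users p) => S.w_nonneg i p)
  unfold W
  positivity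

lemma bd_fp (p : ℕ) : Bd (S.W p) (fun t => S.fp t p) := by
  unfold W fp
  refine (Bd.const' (S.base_nonneg p)).add ?_
  rw [Finset.mul_sum]
  refine Bd.sum _ fun i _ => (Bd.coord i).mul (Bd.const' (S.w_nonneg i p))

lemma bd_list (L : List ℕ) : Bd (L.map S.W).prod (fun t => (L.map (S.fp t)).prod) := by
  induction L with
  | nil => simpa using Bd.const' (ι := ι) zero_le_one
  | cons p L ih => simpa using (S.bd_fp p).mul ih

lemma bd_cm (n : ℕ) : Bd (cm S.W n) (fun t => cm (S.fp t) n) := S.bd_list _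

/-- difference from the parameter free part at a prime -/
lemma bd_fp_sub (p : ℕ) : Bd (S.W p - S.base p) (fun t => S.fp t p - S.base p) := by
  unfold W fp
  simp only [add_sub_cancel_left]
  rw [Finset.mul_sum]
  exact Bd.sum _ fun i _ => (Bd.coord i).mul (Bd.const' (S.w_nonneg i p))

lemma bd_list_sub (L : List ℕ) : Bd ((L.map S.W).prod - (L.map S.base).prod)
    (fun t => (L.map (S.fp t)).prod - (L.map S.base).prod) := by
  induction L with
  | nil => simpa using Bd.const' (ι := ι) (le_refl (0 : ℝ))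
  | cons p L ih =>
    have h1 := (S.bd_fp_sub p).mul (S.bd_list L)
    have h2 := (Bd.const' (ι := ι) (S.base_nonneg p)).mul ih
    have h3 := h1.add h2
    convert h3 using 1
    · simp only [List.map_cons, List.prod_cons]; ring
    · funext t
      simp only [List.map_cons, List.prod_cons]; ring

/-- difference from the weight of one own integer at its control prime -/
lemma bd_fp_own {i : ι} {n : ℕ} (hn : n ∈ S.own i) : Bd (S.W (S.q i n) - 2 * S.c i n)
    (fun t => S.fp t (S.q i n) - t i * S.c i n) := by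
  set p := S.q i n with hp
  have hi : i ∈ S.users p := S.mem_users.mpr ⟨n, hn, rfl⟩
  have hn' : n ∈ (S.own i).filter (fun n => S.q i n = p) := Finset.mem_filter.mpr ⟨hn, rfl⟩
  have hw : S.w i p = S.c i n + ∑ n' ∈ ((S.own i).filter (fun n => S.q i n = p)).erase n, S.c i n' := by
    unfold w
    rw [← Finset.add_sum_erase _ _ hn']
  have hr : 0 ≤ ∑ n' ∈ ((S.own i).filter (fun n => S.q i n = p)).erase n, S.c i n' :=
    Finset.sum_nonneg fun n' _ => S.c_nonneg i n'
  have h1 : Bd (S.base p) (fun _ : ι → ℝ => S.base p) := Bd.const' (S.base_nonneg p)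
  have h2 : Bd (∑ j ∈ (S.users p).erase i, 2 * S.w j p)
      (fun t : ι → ℝ => ∑ j ∈ (S.users p).erase i, t j * S.w j p) :=
    Bd.sum _ fun j _ => (Bd.coord j).mul (Bd.const' (S.w_nonneg j p))
  have h3 := (Bd.coord i).mul (Bd.const' (ι := ι) hr)
  have h4 := (h1.add h2).add h3
  convert h4 using 1
  · unfold W
    rw [← Finset.add_sum_erase _ _ hi, hw, ← Finset.mul_sum]
    ring
  · funext t
    unfold fp
    rw [← Finset.add_sum_erase _ _ hi, hw]
    ring

/-- difference from the own monomial at an own integer -/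
lemma bd_own {i : ι} {n : ℕ} (hn : n ∈ S.own i) :
    Bd (cm S.W n - 2 * (S.c i n * cm S.base (n / S.q i n)))
      (fun t => cm (S.fp t) n - t i * (S.c i n * cm S.base (n / S.q i n))) := by
  have hn0 : n ≠ 0 := S.cell_pos i n (S.own_sub i hn)
  have hq := S.q_prime i n hn
  obtain ⟨m, hm⟩ := S.q_dvd i n hn
  have hm0 : m ≠ 0 := by rintro rfl; exact hn0 (by simpa using hm)
  have hdiv : n / S.q i n = m := Nat.div_eq_of_eq_mul_right hq.pos hm
  have hcm : ∀ g : ℕ → ℝ, cm g n = g (S.q i n) * cm g m := fun g => by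
    have : cm g n = cm g (S.q i n * m) := by rw [← hm]
    rw [this, cm_mul g hq.ne_zero hm0, cm_prime g hq]
  rw [hdiv, hcm]
  have h1 := (S.bd_fp_own hn).mul (S.bd_cm m)
  have h2 := ((Bd.coord i).mul (Bd.const' (ι := ι) (S.c_nonneg i n))).mul (S.bd_list_sub m.primeFactorsList)
  have h3 := h1.add h2
  convert h3 using 1
  · simp only [cm]; ring
  · funext t
    rw [hcm]
    simp only [cm]
    ring

/-- the cell sum without the own part -/
noncomputable def R (t : ι → ℝ) (i : ι) : ℝ := ∑ n ∈ S.cell i, cm (S.fp t) n - t i * S.G i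

lemma bd_R (i : ι) : Bd (∑ n ∈ S.cell i, cm S.W n - 2 * S.G i) (fun t => S.R t i) := by
  have h1 : Bd (∑ n ∈ S.own i, (cm S.W n - 2 * (S.c i n * cm S.base (n / S.q i n))))
      (fun t => ∑ n ∈ S.own i, (cm (S.fp t) n - t i * (S.c i n * cm S.base (n / S.q i n)))) :=
    Bd.sum _ fun n hn => S.bd_own hn
  have h2 : Bd (∑ n ∈ S.cell i \ S.own i, cm S.W n)
      (fun t => ∑ n ∈ S.cell i \ S.own i, cm (S.fp t) n) := Bd.sum _ fun n _ => S.bd_cm n
  have h3 := h1.add h2
  convert h3 using 1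
  · rw [Finset.sum_sub_distrib, ← Finset.mul_sum, S.G_eq i, ← Finset.sum_sdiff (S.own_sub i)]
    ring
  · funext t
    unfold R
    rw [Finset.sum_sub_distrib, ← Finset.mul_sum, S.G_eq i, ← Finset.sum_sdiff (S.own_sub i)]
    ring

/-- **fixed point**: STAR implies that all cell sums vanish for suitable parameters. -/
theorem exists_t (star : ∀ i, ∑ n ∈ S.cell i, cm S.W n ≤ (2 + 1/4) * S.G i) :
    ∃ t : ι → ℝ, (∀ i, |t i| ≤ 1) ∧ ∀ i, ∑ n ∈ S.cell i, cm (S.fp t) n = 0 := by
  have hR : ∀ i, Bd (1/4 * S.G i) (fun t => S.R t i) := fun i =>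
    (S.bd_R i).mono (by have := star i; linarith)
  obtain ⟨t, ht, h⟩ := Pool.Agent.Helper55.QRH.fixedPoint (ι := ι) (fun _ i => S.G i) S.R S.G (1/4) 0
    S.G_pos (by norm_num) le_rfl (by norm_num) (fun _ _ _ => le_rfl)
    (fun t ht i => by
      obtain ⟨v, l, hv, hl, hs, h1, _⟩ := hR i
      exact (h1 t ht).trans (by linarith))
    (fun t t' _ _ D _ i => by simp)
    (fun t t' ht ht' D hD i => by
      obtain ⟨v, l, hv, hl, hs, _, h2⟩ := hR i
      have hD0 : 0 ≤ D := (abs_nonneg _).trans (hD i)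
      refine (h2 t t' ht ht' D hD0 hD).trans ?_
      exact mul_le_mul_of_nonneg_right (by linarith) hD0)
  refine ⟨t, ht, fun i => ?_⟩
  have := h i
  unfold R at this
  linarith

/-- the majorant bounds `f_t` -/
theorem abs_le {t : ι → ℝ} (ht : ∀ i, |t i| ≤ 1) (n : ℕ) : |cm (S.fp t) n| ≤ cm S.W n := by
  obtain ⟨v, l, hv, hl, hs, h1, _⟩ := S.bd_cm n
  exact (h1 t ht).trans (by linarith)

end Sys

end Pool.Agent.Helper10.KS
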