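import Pool.Agent.Helper16.KS.St

/-!
# Project KS (S17468): (Last) from vanishing cell sums to the decay of the partial sums
-/

set_option autoImplicit false
open scoped Classical

namespace Pool.Agent.Helper10.KS

open Pool.Agent.Helper16.KS

/-! ### cells -/

lemma ec_le {d : ℝ} (hd : 0 < d) (k : ℕ) : ec d k ≤ k := by
  apply Nat.floor_le_of_le
  have hk : (0 : ℝ) ≤ k := Nat.cast_nonneg k
  nlinarith

lemma nc_mul {d : ℝ} (hd : 0 < d) (k : ℕ) : nc d k * 2 ^ ec d k = 2 ^ k := by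
  unfold nc
  rw [← pow_add, Nat.sub_add_cancel (ec_le hd k)]

lemma mem_blk {a j L n : ℕ} (hL : 0 < L) :
    n ∈ Finset.Ico (a + j * L) (a + (j + 1) * L) ↔ a ≤ n ∧ (n - a) / L = j := by
  rw [Finset.mem_Ico]
  constructor
  · rintro ⟨h1, h2⟩
    have ha : a ≤ n := le_trans (Nat.le_add_right _ _) h1
    refine ⟨ha, ?_⟩
    have h3 : j * L ≤ n - a := by omega
    have h4 : n - a < (j + 1) * L := by omega
    exact Nat.div_eq_of_lt_le h3 h4
  · rintro ⟨ha, h⟩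
    have h1 := Nat.div_mul_le_self (n - a) L
    have h2 := Nat.lt_div_mul_add hL (a := n - a)
    rw [h] at h1 h2
    rw [add_mul, one_mul]
    constructor <;> omega

lemma mem_cell_idx (S : Sys) {n : ℕ} (h0 : n ≠ 0) :
    n ∈ cell S.d (Nat.log 2 n) (S.idx n) ∧ S.idx n < nc S.d (Nat.log 2 n) := by
  have hL : 0 < 2 ^ ec S.d (Nat.log 2 n) := by positivity
  have h1 := Nat.pow_log_le_self 2 h0
  have h2 : n < 2 ^ (Nat.log 2 n + 1) := Nat.lt_pow_succ_log_self (by norm_num) n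
  constructor
  · unfold cell
    rw [mem_blk hL]
    exact ⟨h1, rfl⟩
  · unfold Sys.idx
    rw [Nat.div_lt_iff_lt_mul hL, nc_mul S.d_pos]
    rw [pow_succ] at h2
    omega

/-- sums over consecutive cells -/
lemma sum_cells (d : ℝ) (f : ℕ → ℝ) (k J : ℕ) :
    ∑ n ∈ Finset.Ico (2 ^ k) (2 ^ k + J * 2 ^ ec d k), f n =
      ∑ j ∈ Finset.range J, ∑ n ∈ cell d k j, f n := by
  induction J with
  | zero => simp
  | succ J ih =>
    rw [Finset.sum_range_succ, ← ih, cell]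
    rw [Finset.sum_Ico_consecutive]
    · exact Nat.le_add_right _ _
    · exact Nat.add_le_add_left (Nat.mul_le_mul_right _ (Nat.le_succ _)) _

lemma sum_block {d : ℝ} (hd : 0 < d) (f : ℕ → ℝ) (k : ℕ) :
    ∑ n ∈ Finset.Ico (2 ^ k) (2 ^ (k + 1)), f n =
      ∑ j ∈ Finset.range (nc d k), ∑ n ∈ cell d k j, f n := by
  rw [← sum_cells, nc_mul hd, pow_succ, mul_two]

lemma sum_blocks {d : ℝ} (hd : 0 < d) {k0 : ℕ} (f : ℕ → ℝ)
    (h0 : ∑ n ∈ Finset.Ico 1 (2 ^ k0), f n = 0)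
    (h1 : ∀ k : ℕ, k0 ≤ k → ∀ j < nc d k, ∑ n ∈ cell d k j, f n = 0) :
    ∀ k, k0 ≤ k → ∑ n ∈ Finset.Ico 1 (2 ^ k), f n = 0 := by
  intro k hk
  induction k, hk using Nat.le_induction with
  | base => exact h0
  | succ k hk ih =>
    rw [← Finset.sum_Ico_consecutive f (Nat.one_le_two_pow) (Nat.pow_le_pow_right (by norm_num)
      (Nat.le_succ k)), ih, sum_block hd, zero_add]
    apply Finset.sum_eq_zero
    intro j hj
    exact h1 k hk j (Finset.mem_range.1 hj)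

/-! ### completely multiplicative extension -/

lemma CM_one (g : ℕ → ℝ) : CM g 1 = 1 := by simp [CM]

lemma CM_mul (g : ℕ → ℝ) {a b : ℕ} (ha : a ≠ 0) (hb : b ≠ 0) : CM g (a * b) = CM g a * CM g b := by
  unfold CM
  rw [(Nat.perm_primeFactorsList_mul ha hb).map g |>.prod_eq, List.map_append, List.prod_append]

lemma CM_nonneg {g : ℕ → ℝ} (hg : ∀ p, 0 ≤ g p) (n : ℕ) : 0 ≤ CM g n := by
  unfold CM
  apply List.prod_nonneg
  intro x hx
  obtain ⟨p, _, rfl⟩ := List.mem_map.mp hx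
  exact hg p

lemma abs_CM_le {f g : ℕ → ℝ} (h : ∀ p, |f p| ≤ g p) (n : ℕ) : |CM f n| ≤ CM g n := by
  unfold CM
  induction n.primeFactorsList with
  | nil => simp
  | cons p L ih =>
    simp only [List.map_cons, List.prod_cons]
    rw [abs_mul]
    exact mul_le_mul (h p) ih (abs_nonneg _) ((abs_nonneg _).trans (h p))

/-! ### positivity -/

section pos

variable (S : Sys)

lemma G_nonneg (k : ℕ) : 0 ≤ S.G k := by unfold Sys.G; positivity

lemma ordw_nonneg (k0 p : ℕ) : 0 ≤ S.ordw k0 p := by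
  unfold Sys.ordw
  have h1 : 0 ≤ S.phi0 k0 := by unfold Sys.phi0; positivity
  have h2 := G_nonneg S (Nat.log 2 p)
  split_ifs
  · exact le_rfl
  · exact h1
  · exact le_rfl
  · positivity

lemma pr_nonneg (m : ℕ) : 0 ≤ S.pr m := by unfold Sys.pr; positivity

lemma base_nonneg (m : ℕ) : 0 ≤ S.base m := by unfold Sys.base; positivity

lemma bR_nonneg (R : Set ℕ) (p : ℕ) : 0 ≤ S.bR R p := by
  unfold Sys.bR
  split_ifs
  · exact base_nonneg S p
  · exact le_rfl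

lemma wo_nonneg {R : Set ℕ} {k j : ℕ} (h : 0 ≤ S.NN R k j) (m : ℕ) : 0 ≤ S.wo R k j m := by
  unfold Sys.wo
  exact div_nonneg (G_nonneg S k) (mul_nonneg (mul_nonneg h (pr_nonneg S m)) (base_nonneg S m))

lemma cw_nonneg {R : Set ℕ} {k j : ℕ} (h : 0 ≤ S.NN R k j) (q : ℕ) : 0 ≤ S.cw R k j q :=
  Finset.sum_nonneg fun _ _ => wo_nonneg S h _

lemma ctl_nonneg {R : Set ℕ} {k0 : ℕ} (h : ∀ k, k0 ≤ k → ∀ j ∈ S.badc k, 0 ≤ S.NN R k j)
    (k1 q : ℕ) : 0 ≤ S.ctl k0 k1 R q :=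
  Finset.sum_nonneg fun k hk => Finset.sum_nonneg fun j hj =>
    cw_nonneg S (h k (Finset.mem_Ico.mp hk).1 j hj) q

lemma Wp_nonneg {R : Set ℕ} {k0 : ℕ} (h : ∀ k, k0 ≤ k → ∀ j ∈ S.badc k, 0 ≤ S.NN R k j)
    (p : ℕ) : 0 ≤ S.Wp k0 R p := by
  unfold Sys.Wp
  have h1 := bR_nonneg S R p
  have h2 := ordw_nonneg S k0 p
  have h3 := ctl_nonneg S h (top p) p
  positivity

lemma abs_fp_le {R : Set ℕ} {k0 : ℕ} (h : ∀ k, k0 ≤ k → ∀ j ∈ S.badc k, 0 ≤ S.NN R k j)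
    {t : ℕ × ℕ → ℝ} (ht : ∀ i, |t i| ≤ 1) (p : ℕ) : |S.fp k0 R t p| ≤ S.Wp k0 R p := by
  unfold Sys.fp Sys.Wp
  have h1 := bR_nonneg S R p
  have h2 := ordw_nonneg S k0 p
  have h3 := ctl_nonneg S h (top p) p
  have e2 : |t (S.cix k0 p) * S.ordw k0 p| ≤ S.ordw k0 p := by
    rw [abs_mul, abs_of_nonneg h2]
    exact mul_le_of_le_one_left h2 (ht _)
  have e3 : |∑ k ∈ Finset.Ico k0 (top p), ∑ j ∈ S.badc k, t (k, j) * S.cw R k j p| ≤
      S.ctl k0 (top p) R p := by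
    unfold Sys.ctl
    refine (Finset.abs_sum_le_sum_abs _ _).trans (Finset.sum_le_sum fun k hk => ?_)
    refine (Finset.abs_sum_le_sum_abs _ _).trans (Finset.sum_le_sum fun j hj => ?_)
    have h4 := cw_nonneg S (h k (Finset.mem_Ico.mp hk).1 j hj) p
    rw [abs_mul, abs_of_nonneg h4]
    exact mul_le_of_le_one_left h4 (ht _)
  calc |S.bR R p + t (S.cix k0 p) * S.ordw k0 p +
        ∑ k ∈ Finset.Ico k0 (top p), ∑ j ∈ S.badc k, t (k, j) * S.cw R k j p|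
      ≤ |S.bR R p| + |t (S.cix k0 p) * S.ordw k0 p| +
        |∑ k ∈ Finset.Ico k0 (top p), ∑ j ∈ S.badc k, t (k, j) * S.cw R k j p| := abs_add_three _ _ _
    _ ≤ S.bR R p + S.ordw k0 p + S.ctl k0 (top p) R p := by
        rw [abs_of_nonneg h1]
        gcongr
    _ ≤ _ := by linarith

end pos

/-- size of `G` -/
lemma G_le (S : Sys) {k : ℕ} (hk : 1 ≤ k) : S.G k ≤ (2 : ℝ) ^ (-(1/2 + S.d / 2) * (k : ℝ)) := by
  have hd := S.d_pos
  have h1 : (2 : ℝ) ^ ec S.d k ≤ (2 : ℝ) ^ ((k : ℝ) * (1/2 - S.d)) := by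
    have hdle : S.d ≤ 1/2 := by
      have h1 := S.d_le; have h2 := S.c_le; have h3 := S.eta_le; have h4 := S.del_le
      linarith
    rw [← Real.rpow_natCast]
    apply Real.rpow_le_rpow_of_exponent_le (by norm_num)
    exact Nat.floor_le (mul_nonneg (Nat.cast_nonneg k) (by linarith))
  have hk' : (1 : ℝ) ≤ (k : ℝ) ^ 4 := by
    have : (1 : ℝ) ≤ (k : ℝ) := by exact_mod_cast hk
    exact one_le_pow₀ this
  unfold Sys.G
  calc (2 : ℝ) ^ ec S.d k * (2 : ℝ) ^ ((S.s - 1) * k) / k ^ 4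
      ≤ (2 : ℝ) ^ ec S.d k * (2 : ℝ) ^ ((S.s - 1) * k) := div_le_self (by positivity) hk'
    _ ≤ (2 : ℝ) ^ ((k : ℝ) * (1/2 - S.d)) * (2 : ℝ) ^ ((S.s - 1) * k) := by gcongr
    _ = (2 : ℝ) ^ (-(1/2 + S.d / 2) * (k : ℝ)) := by
        rw [← Real.rpow_add (by norm_num)]
        congr 1
        unfold Sys.s
        ring

theorem last : Last := by
  intro S k0 hk3 R _ hNN hStar t ht hinit hcell
  have hNN' : ∀ k, k0 ≤ k → ∀ j ∈ S.badc k, 0 ≤ S.NN R k j := fun k hk j hj => (hNN k hk j hj).le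
  have hd := S.d_pos
  set f := S.ft k0 R t with hf
  have hfW : ∀ n, |f n| ≤ S.W k0 R n := fun n => abs_CM_le (abs_fp_le S hNN' ht) n
  have hW0 : ∀ n, 0 ≤ S.W k0 R n := fun n => CM_nonneg (Wp_nonneg S hNN') n
  set α : ℝ := 1/2 + S.d / 2 with hα
  have hα0 : 0 < α := by positivity
  set M : ℝ := ∑ n ∈ Finset.Icc 1 (2 ^ k0), |f n| with hM
  have hM0 : 0 ≤ M := Finset.sum_nonneg fun n _ => abs_nonneg _
  refine ⟨(2 + 1/4) * 2 ^ α + M * ((2:ℝ) ^ k0) ^ α, fun N hN => ?_⟩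
  have hN' : (0:ℝ) < N := by exact_mod_cast hN
  by_cases hNk : N < 2 ^ k0
  · have h2 : |∑ n ∈ Finset.Icc 1 N, f n| ≤ M := by
      refine (Finset.abs_sum_le_sum_abs _ _).trans ?_
      apply Finset.sum_le_sum_of_subset_of_nonneg
      · exact Finset.Icc_subset_Icc le_rfl hNk.le
      · intro n _ _; exact abs_nonneg _
    have h3 : 1 ≤ ((2:ℝ) ^ k0) ^ α * (N : ℝ) ^ (-α) := by
      rw [Real.rpow_neg hN'.le, ← div_eq_mul_inv, one_le_div (by positivity)]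
      apply Real.rpow_le_rpow hN'.le _ hα0.le
      exact_mod_cast hNk.le
    calc |∑ n ∈ Finset.Icc 1 N, f n| ≤ M * 1 := by rw [mul_one]; exact h2
      _ ≤ M * (((2:ℝ) ^ k0) ^ α * (N : ℝ) ^ (-α)) := mul_le_mul_of_nonneg_left h3 hM0
      _ = (M * ((2:ℝ) ^ k0) ^ α) * (N : ℝ) ^ (-α) := by ring
      _ ≤ _ := by
        apply mul_le_mul_of_nonneg_right _ (by positivity)
        have : 0 ≤ (2 + 1/4) * (2:ℝ) ^ α := by positivity
        linarith
  · rw [not_lt] at hNk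
    have hN0 : N ≠ 0 := by omega
    set k := Nat.log 2 N with hk
    set j := S.idx N with hj
    have hk0k : k0 ≤ k := by
      rw [hk]
      exact (Nat.le_log_iff_pow_le (by norm_num) hN0).2 hNk
    obtain ⟨hNcell, hjlt⟩ := mem_cell_idx S hN0
    rw [← hk, ← hj] at hNcell hjlt
    have hNc := hNcell
    unfold cell at hNc
    rw [Finset.mem_Ico] at hNc
    have hb := sum_blocks hd f hinit hcell k hk0k
    have hs1 : ∑ n ∈ Finset.Ico (2 ^ k) (2 ^ k + j * 2 ^ ec S.d k), f n = 0 := by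
      rw [sum_cells]
      apply Finset.sum_eq_zero
      intro j' hj'
      exact hcell k hk0k j' ((Finset.mem_range.1 hj').trans hjlt)
    have hsum : ∑ n ∈ Finset.Icc 1 N, f n =
        ∑ n ∈ Finset.Ico (2 ^ k + j * 2 ^ ec S.d k) (N + 1), f n := by
      have e1 : Finset.Icc 1 N = Finset.Ico 1 (N + 1) := by
        ext; simp only [Finset.mem_Icc, Finset.mem_Ico]; omega
      have h1 : 1 ≤ 2 ^ k := Nat.one_le_two_pow
      have h2 : 2 ^ k ≤ 2 ^ k + j * 2 ^ ec S.d k := Nat.le_add_right _ _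
      rw [e1, ← Finset.sum_Ico_consecutive f (h1.trans h2) (by omega),
        ← Finset.sum_Ico_consecutive f h1 h2, hb, hs1]
      simp
    have hbd : |∑ n ∈ Finset.Icc 1 N, f n| ≤ (2 + 1/4) * S.G k := by
      rw [hsum]
      refine (Finset.abs_sum_le_sum_abs _ _).trans ?_
      refine le_trans ?_ (hStar.2 k hk0k j hjlt)
      refine le_trans (Finset.sum_le_sum fun n _ => hfW n) ?_
      apply Finset.sum_le_sum_of_subset_of_nonneg
      · unfold cell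
        exact Finset.Ico_subset_Ico le_rfl (by omega)
      · intro n _ _; exact hW0 n
    have hk1 : 1 ≤ k := by omega
    have hG := G_le S hk1
    have hN2 : (N : ℝ) < (2 : ℝ) ^ ((k : ℝ) + 1) := by
      have : N < 2 ^ (k + 1) := Nat.lt_pow_succ_log_self (by norm_num) N
      have h2 : (N : ℝ) < ((2 ^ (k + 1) : ℕ) : ℝ) := by exact_mod_cast this
      rw [show ((k : ℝ) + 1) = ((k + 1 : ℕ) : ℝ) by push_cast; ring, Real.rpow_natCast]
      simpa using h2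
    have hpow : (2 : ℝ) ^ (-α * (k : ℝ)) ≤ 2 ^ α * (N : ℝ) ^ (-α) := by
      have h3 : (N : ℝ) ^ α ≤ ((2 : ℝ) ^ ((k : ℝ) + 1)) ^ α := Real.rpow_le_rpow hN'.le hN2.le hα0.le
      rw [← Real.rpow_mul (by norm_num)] at h3
      rw [Real.rpow_neg hN'.le, ← div_eq_mul_inv, le_div_iff₀ (by positivity)]
      calc (2 : ℝ) ^ (-α * (k : ℝ)) * (N : ℝ) ^ α ≤ (2 : ℝ) ^ (-α * (k : ℝ)) * 2 ^ (((k : ℝ) + 1) * α) := by
            gcongr
        _ = 2 ^ α := by
            rw [← Real.rpow_add (by norm_num)]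
            congr 1
            ring
    calc |∑ n ∈ Finset.Icc 1 N, f n| ≤ (2 + 1/4) * S.G k := hbd
      _ ≤ (2 + 1/4) * (2 : ℝ) ^ (-α * (k : ℝ)) := by
          rw [hα]; gcongr
      _ ≤ (2 + 1/4) * (2 ^ α * (N : ℝ) ^ (-α)) := by gcongr
      _ = ((2 + 1/4) * 2 ^ α) * (N : ℝ) ^ (-α) := by ring
      _ ≤ ((2 + 1/4) * 2 ^ α + M * ((2:ℝ) ^ k0) ^ α) * (N : ℝ) ^ (-α) := by
          apply mul_le_mul_of_nonneg_right _ (by positivity)
          have : 0 ≤ M * ((2:ℝ) ^ k0) ^ α := by positivity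
          linarith

end Pool.Agent.Helper10.KS
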